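import Mathlib
import Pool.Agent.Helper53.SM.Final

set_option autoImplicit false
open MeasureTheory Real Set

namespace Pool.Agent.Results.MP_9ee088_an.FiniteMixing

open Pool.Agent.Helper53.SM

/-- Finite-time decay of correlations for the deterministic standard map, uniform in the parameter:
all times `n` much smaller than `|a| ^ (1 / 3)` are covered, for Lipschitz observables whose Lipschitz
constant may be as large as a small power of `|a| ^ n`. -/
theorem result :
    ∃ C : ℝ, 0 < C ∧ ∀ a : ℝ, 1 ≤ |a| →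
      ∀ T : UnitAddCircle × UnitAddCircle → UnitAddCircle × UnitAddCircle,
      (∀ x y : ℝ, T ((x : UnitAddCircle), (y : UnitAddCircle)) =
        (((2 * x - y + a * Real.sin (2 * π * x) : ℝ) : UnitAddCircle), (x : UnitAddCircle))) →
      ∀ (f g : UnitAddCircle × UnitAddCircle → ℝ) (L : ℝ), 0 ≤ L →
        (∀ p, |f p| ≤ 1) → (∀ p, |g p| ≤ 1) →
        (∀ p q, |f p - f q| ≤ L * dist p q) → (∀ p q, |g p - g q| ≤ L * dist p q) →
      ∀ n : ℕ, 1 ≤ n →
      |(∫ p, f p * g (T^[n] p)) - (∫ p, f p) * ∫ p, g p| ≤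
        C * (n * |a| ^ (-(1:ℝ) / 3) + L * (|a| ^ (-(2:ℝ) / 3)) ^ (n / 2)) := by
  refine ⟨150, by norm_num, ?_⟩
  intro a ha T hT f g L hL hf1 hg1 hfL hgL n hn
  exact mixing_final ha hT hf1 hg1 hL hfL hgL hn

end Pool.Agent.Results.MP_9ee088_an.FiniteMixing
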