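import Mathlib
import Pool.Agent.Helper53.SM.FinalC

set_option autoImplicit false
open MeasureTheory Real Set

namespace Pool.Agent.Results.MP_9ee088_an.ScaleWeakMixing

open Pool.Agent.Helper53.SM

/-- Ergodicity and weak mixing of the standard map at all scales down to `exp (-|a| ^ α)`, for
every `α < 1 / 3`: every bounded (complex) eigenfunction `h` of the Koopman operator of the
standard map `T = S_a`, in particular every invariant function (`ξ = 1`), is almost uncorrelated
with every function `f` that is bounded by `1` and has Lipschitz constant at most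
`exp (|a| ^ α)`. -/
theorem result :
    ∀ α : ℝ, 0 < α → α < 1 / 3 → ∃ C : ℝ, 0 < C ∧ ∀ a : ℝ, 1 ≤ |a| →
      ∀ T : UnitAddCircle × UnitAddCircle → UnitAddCircle × UnitAddCircle,
      (∀ x y : ℝ, T ((x : UnitAddCircle), (y : UnitAddCircle)) =
        (((2 * x - y + a * Real.sin (2 * π * x) : ℝ) : UnitAddCircle), (x : UnitAddCircle))) →
      ∀ ξ : ℂ, ‖ξ‖ = 1 →
      ∀ h : UnitAddCircle × UnitAddCircle → ℂ, Measurable h → (∀ p, ‖h p‖ ≤ 1) →
        (h ∘ T =ᵐ[volume] fun p => ξ * h p) →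
      ∀ f : UnitAddCircle × UnitAddCircle → ℝ, (∀ p, |f p| ≤ 1) →
        (∀ p q, |f p - f q| ≤ Real.exp (|a| ^ α) * dist p q) →
      ‖(∫ p, h p * (f p : ℂ)) - (∫ p, h p) * ((∫ p, f p : ℝ) : ℂ)‖ ≤
        C * |a| ^ (-((1 / 3 - α) / 4)) := by
  intro α hα hα3
  obtain ⟨k, hk⟩ := exists_nat_ge (((1 / 3 - α) / 2) / α)
  have hk' : (1 / 3 - α) / 2 ≤ k * α := by
    rwa [div_le_iff₀ hα] at hk
  refine ⟨Real.sqrt (1804 + 2 * (k.factorial : ℝ)) + 10, by positivity, ?_⟩
  intro a ha T hT ξ hξ h hh hh1 hinv f hf1 hfL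
  have hA0 : (0:ℝ) < |a| := by linarith
  have hpos : 0 < |a| ^ (-((1 / 3 - α) / 4)) := Real.rpow_pos_of_pos hA0 _
  rcases le_or_gt 5 |a| with h5 | h5
  · have hmain := scale_eig_h hα hα3 hk' h5 hT hξ hh hh1 hinv hf1 hfL
    have e : (1804 + 2 * (k.factorial : ℝ)) * |a| ^ (-((1 / 3 - α) / 2)) =
        (Real.sqrt (1804 + 2 * (k.factorial : ℝ)) * |a| ^ (-((1 / 3 - α) / 4))) ^ 2 := by
      rw [mul_pow, Real.sq_sqrt (by positivity), ← Real.rpow_natCast (|a| ^ _) 2,
        ← Real.rpow_mul hA0.le]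
      congr 2
      push_cast
      ring
    rw [e] at hmain
    have h6 := abs_le_of_sq_le_sq hmain (by positivity)
    rw [abs_norm] at h6
    refine h6.trans ?_
    gcongr
    linarith
  · have h6 : ‖(∫ p, h p * (f p : ℂ)) - (∫ p, h p) * ((∫ p, f p : ℝ) : ℂ)‖ ≤ 2 := by
      have b1 := norm_integral_le_of_norm_le_const (μ := (volume : Measure T2))
        (f := fun p => h p * (f p : ℂ)) (C := 1) (Filter.Eventually.of_forall (fun p => by
          rw [norm_mul, Complex.norm_real, Real.norm_eq_abs]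
          calc _ ≤ (1:ℝ) * 1 := mul_le_mul (hh1 _) (hf1 _) (abs_nonneg _) (by norm_num)
            _ = 1 := by norm_num))
      have b2 := norm_integral_le_of_norm_le_const (μ := (volume : Measure T2))
        (f := h) (C := 1) (Filter.Eventually.of_forall hh1)
      have b3 := norm_integral_le_of_norm_le_const (μ := (volume : Measure T2))
        (f := f) (C := 1) (Filter.Eventually.of_forall (fun p => by
          rw [Real.norm_eq_abs]; exact hf1 p))
      simp only [probReal_univ, mul_one] at b1 b2 b3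
      have b4 : ‖(∫ p, h p) * ((∫ p, f p : ℝ) : ℂ)‖ ≤ 1 := by
        rw [norm_mul, Complex.norm_real]
        calc _ ≤ (1:ℝ) * 1 := mul_le_mul b2 b3 (norm_nonneg _) (by norm_num)
          _ = 1 := by norm_num
      have := norm_sub_le (∫ p, h p * (f p : ℂ)) ((∫ p, h p) * ((∫ p, f p : ℝ) : ℂ))
      linarith
    have h7 : (1:ℝ) / 5 ≤ |a| ^ (-((1 / 3 - α) / 4)) := by
      have e : (5:ℝ) ^ (-(1:ℝ)) ≤ |a| ^ (-(1:ℝ)) := by
        rw [Real.rpow_neg_one, Real.rpow_neg_one]
        exact inv_anti₀ hA0 h5.le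
      have e2 : |a| ^ (-(1:ℝ)) ≤ |a| ^ (-((1 / 3 - α) / 4)) :=
        Real.rpow_le_rpow_of_exponent_le ha (by linarith)
      rw [Real.rpow_neg_one] at e
      linarith
    have h8 : 0 ≤ Real.sqrt (1804 + 2 * (k.factorial : ℝ)) := Real.sqrt_nonneg _
    nlinarith [mul_nonneg h8 hpos.le]

end Pool.Agent.Results.MP_9ee088_an.ScaleWeakMixing
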